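import Pool.Agent.H839.PZ.Smooth
import Pool.Graph.R_pool_sql_team_seeded_2aa45f1a.Q68.OV.One
import Pool.Graph.R_pool_sql_team_seeded_2aa45f1a.Q193.LT.Origin

/-!
# Invertible matrices with prescribed entries: finite lists

For every scheme `X` of finite type over a field `K` there is a finite list of square matrices with some
prescribed entries such that every property with the closure properties `Bnd` (closed-open decompositions,
affine bundles, `𝔾_m`) which is true for the schemes of invertible matrices with these prescribed entries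
(the other entries are independent coordinates) is true for `X`. The list depends on `X` only.
-/

set_option autoImplicit false

open CategoryTheory CategoryTheory.Limits AlgebraicGeometry Pool.Agent.Y116.UV Pool.Agent.Z125.UN
  Pool.Agent.Q193.LT Pool.Agent.Q49.WU Pool.Agent.Q68.OV Pool.Agent.H839.PZ

universe w w' v u

namespace Pool.Agent.H652.PM

/-- Square matrices with prescribed entries: the size `m`, the set `F` of the places, and the entries. -/
structure PMat (K : Type) where
  /-- the size -/
  m : ℕ
  /-- the places of the prescribed entries -/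
  F : Finset (Fin m × Fin m)
  /-- the prescribed entries -/
  c : Fin m → Fin m → K

/-- The scheme of the invertible matrices with the prescribed entries; the other entries are independent
coordinates. -/
noncomputable def PMat.sch {K : Type} [Field K] (M : PMat K) : Sch K := GLP M.F M.c

section

variable {K : Type} [Field K]

lemma PMat.ft (M : PMat K) {sep : Prop} : FT sep M.sch := ft_glp M.F M.c

lemma PMat.smooth (M : PMat K) : Smooth M.sch.hom := smooth_glp M.F M.c

/-- the empty matrix -/
def pm0 (K : Type) : PMat K := ⟨0, ∅, fun i => i.elim0⟩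

/-- Its scheme is the point. -/
lemma pm0_iso : Nonempty ((pm0 K).sch ≅ aff K K) := by
  have he : IsEmpty {e : Fin 0 × Fin 0 // e ∉ (∅ : Finset (Fin 0 × Fin 0))} :=
    ⟨fun e => e.1.1.elim0⟩
  have hdet : (prm (∅ : Finset (Fin 0 × Fin 0)) (fun i => i.elim0 : Fin 0 → Fin 0 → K)).det = 1 :=
    Matrix.det_isEmpty
  have e1 : Localization.Away (prm (∅ : Finset (Fin 0 × Fin 0))
      (fun i => i.elim0 : Fin 0 → Fin 0 → K)).det ≃ₐ[K] K := by
    have e2 := MvPolynomial.isEmptyAlgEquiv K
      {e : Fin 0 × Fin 0 // e ∉ (∅ : Finset (Fin 0 × Fin 0))}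
    have e3 := IsLocalization.atUnit
      (MvPolynomial {e : Fin 0 × Fin 0 // e ∉ (∅ : Finset (Fin 0 × Fin 0))} K)
      (Localization.Away (prm (∅ : Finset (Fin 0 × Fin 0))
        (fun i => i.elim0 : Fin 0 → Fin 0 → K)).det)
      (prm (∅ : Finset (Fin 0 × Fin 0)) (fun i => i.elim0 : Fin 0 → Fin 0 → K)).det
      (by rw [hdet]; exact isUnit_one)
    exact (e3.symm.restrictScalars K).trans e2
  exact ⟨(affIso e1).symm⟩

/-- Every property with the closure properties `Bnd` which is true for the matrix schemes of some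
finite list is true for `X`. -/
def ReachedP (X : Sch K) : Prop :=
  ∃ L : List (PMat K), ∀ Q : Sch K → Prop, Bnd True Q → (∀ M ∈ L, Q M.sch) → Q X

theorem bnd_reachedP : Bnd True (ReachedP : Sch K → Prop) := by
  have two : ∀ {X Y Z : Sch K}, (∀ Q : Sch K → Prop, Bnd True Q → Q X → Q Y → Q Z) →
      ReachedP X → ReachedP Y → ReachedP Z := by
    rintro X Y Z h ⟨L, h1⟩ ⟨L', h2⟩
    refine ⟨L ++ L', fun Q hQ h3 => ?_⟩
    exact h Q hQ (h1 Q hQ fun t ht => h3 t (List.mem_append_left _ ht))
      (h2 Q hQ fun t ht => h3 t (List.mem_append_right _ ht))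
  have one : ∀ {X Y : Sch K}, (∀ Q : Sch K → Prop, Bnd True Q → Q X → Q Y) →
      ReachedP X → ReachedP Y := by
    rintro X Y h ⟨L, h1⟩
    exact ⟨L, fun Q hQ h3 => h Q hQ (h1 Q hQ h3)⟩
  exact
  { iso := fun hX e => one fun Q hQ => hQ.iso hX e
    total := fun i j hX ht => two fun Q hQ => hQ.total i j hX ht
    opened := fun i j hX ht => two fun Q hQ => hQ.opened i j hX ht
    closed := fun i j hX ht => two fun Q hQ => hQ.closed i j hX ht
    space := fun n => ⟨[], fun Q hQ _ => hQ.space n⟩
    jouanolou := fun B _ _ _ l f U j hj hr h =>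
      one (X := aff K (Jou f)) (Y := U) (fun Q hQ h1 => hQ.jouanolou B l f U j hj hr h1) h
    torus := fun B _ _ _ h => one (X := aff K (LaurentPolynomial B)) (Y := aff K B)
      (fun Q hQ h1 => hQ.torus B h1) h
    bundle := fun B _ _ _ l f U j hj hr h =>
      one (X := U) (Y := aff K (Jou f)) (fun Q hQ h1 => hQ.bundle B l f U j hj hr h1) h }

/-- For each scheme of finite type there are finitely many matrices with prescribed entries such that
each property with the closure properties `Bnd` which is true for their schemes is true for it. -/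
theorem reachedP (X : Sch K) (hX : FT True X) : ReachedP X := by
  refine (glp_iff (R := K) (sep := True) bnd_reachedP).mpr (fun m F c => ?_) X hX
  exact ⟨[⟨m, F, c⟩], fun Q _ h1 => h1 ⟨m, F, c⟩ (List.mem_singleton.mpr rfl)⟩

/-- All schemes and all matrices with prescribed entries. -/
theorem pmat_iff {P : Sch K → Prop} (hP : Bnd True P) :
    (∀ X : Sch K, FT True X → P X) ↔ ∀ M : PMat K, P M.sch :=
  ⟨fun h M => h _ M.ft, fun h X hX => by
    obtain ⟨L, hL⟩ := reachedP X hX
    exact hL P hP fun M _ => h M⟩

end

section occ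

variable {K : Type} [Field K]

/-- The simple object `σ` is (up to a twist) a subquotient of the cohomology of `Y` in some degree. -/
def OccursIn {A : Type u} [Category.{v} A] [Abelian A]
    (D : CompactData K A) (σ : A) (Y : Sch K) : Prop := ∃ i, Occurs D σ (D.H i Y)

/-- The finite list of matrices for `Y`, for all theories and all simple objects. -/
theorem list_for (Y : Sch K) (hY : FT True Y) : ∃ L : List (PMat K),
    ∀ (A : Type u) [Category.{v} A] [Abelian A] (D : CompactData K A), IsCompact D →
      ∀ (σ : A) [Simple σ], OccursIn D σ Y → ∃ M ∈ L, OccursIn D σ M.sch := by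
  obtain ⟨L, hL⟩ := reachedP Y hY
  refine ⟨pm0 K :: L, ?_⟩
  intro A _ _ D hD σ _ ⟨i, h⟩
  by_contra h0
  have h3 : ∀ n, ¬ Occurs D σ (D.H n (aff K K)) := by
    intro n hn
    obtain ⟨a, ha⟩ := hn
    obtain ⟨e0⟩ := pm0_iso (K := K)
    obtain ⟨e⟩ := hD.iso (ft_aff True) ⟨e0.symm⟩ n
    have := hD.twAdditive a
    exact h0 ⟨pm0 K, List.mem_cons_self, n, a, ha.of_iso ((D.tw a).mapIso e)⟩
  exact hL _ (bnd_compact hD (not_occurs_serre hD σ) h3)
    (fun M hM n hn => h0 ⟨M, List.mem_cons_of_mem _ hM, n, hn⟩) i h

/-- A simple object occurs in the cohomology of some scheme of finite type if and only if it occurs in the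
cohomology of the scheme of the invertible matrices with some prescribed entries. -/
theorem origin_mat {A : Type u} [Category.{v} A] [Abelian A] {D : CompactData K A}
    (hD : IsCompact D) (σ : A) [Simple σ] :
    (∃ Y : Sch K, FT True Y ∧ OccursIn D σ Y) ↔ ∃ M : PMat K, OccursIn D σ M.sch := by
  constructor
  · rintro ⟨Y, hY, h⟩
    obtain ⟨L, hL⟩ := list_for.{v, u} Y hY
    obtain ⟨M, _, hM⟩ := hL A D hD σ h
    exact ⟨M, hM⟩
  · rintro ⟨M, hM⟩
    exact ⟨M.sch, M.ft, hM⟩

/-- The same for smooth projective schemes. -/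
theorem origin_proj_mat [PerfectField K] {A : Type u} [Category.{v} A] [Abelian A]
    {D : CompactData K A} (hD : IsCompact D) (hg : Generated D) (σ : A) [Simple σ] :
    (∃ Y : Sch K, SmoothProj Y ∧ OccursIn D σ Y) ↔ ∃ M : PMat K, OccursIn D σ M.sch := by
  rw [← origin_mat hD σ]
  exact (origin_proj_all hD σ hg).trans (origin_all hD σ).symm

end occ

section pair

variable {k : Type} [Field k] [PerfectField k] {ι : Type} {E : Type w'} [CommRing E]
  {C : PairData.{w} k ι E} {δ τ σ : ι ≃ ι} (hg : WeightGen C) (hC : IsPair C δ τ σ)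
  (h1 : BijAll C (aff k k))

include hg hC h1

/-- smooth projective schemes and matrices with prescribed entries -/
theorem wg_mat : (∀ Y : Sch k, SmoothProj Y → BijAll C Y) ↔ ∀ M : PMat k, BijAll C M.sch := by
  constructor
  · intro h M
    exact (all_iff (bnd_pair hC h1)).mpr ((wg_all hg hC h1).mp h) _ M.ft
  · intro h Y hY
    exact (pmat_iff (bnd_pair hC h1)).mpr h Y hY.ft

end pair

/-- **The classes of one smooth projective scheme and finitely many matrices with prescribed
entries.** -/
theorem reach_mat {F : Type} [Field F] [PerfectField F] {S : Sch F} (hS : SmoothProj S) (m0 : ℤ) :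
    ∃ L : List (PMat F), ∀ (E : Type w') [CommRing E] (D : Reach.{w, w', u} F E S m0)
        (C : PairData.{w} F (ℤ × ℤ) E), IsReach D →
        IsWeightPair C → WeightGen C →
        (∀ Y, SmoothProj Y → ∀ m, (BijAt C Prod.fst m Y ↔ Closed D m Y)) →
        (∀ Y : Sch F, SmoothProj Y → topologicalKrullDim Y.left ≤ (0 : ℕ) → BijAll C Y) →
        (Holds D ↔ ∀ M ∈ L, BijAll C M.sch) ∧
        (Holds D → ∀ M : PMat F, BijAll C M.sch) := by
  classical
  obtain ⟨L, hL⟩ := reachedP S hS.ft
  refine ⟨L, fun E _ D C hD hC hg bij low => ?_⟩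
  have point : BijAll C (aff F F) := by
    refine hg 0 low (aff F F) (ft_aff True) ?_
    rw [topDim_aff, ringKrullDim_eq_zero_of_field]
    exact_mod_cast Nat.zero_le 0
  have hall' : ∀ X : Sch F, BijAll C X ↔ ∀ m, BijAt C Prod.fst m X :=
    fun X => ⟨fun h _ j _ => h j, fun h j => h j.1 j rfl⟩
  have hst' : Holds D → ∀ Y, SmoothProj Y → BijAll C Y := fun h Y hY =>
    (hall' Y).mpr fun m => (bij Y hY m).mpr fun c x hx => hD.act_mem m Y hY c x (h x hx)
  have hback : BijAt C Prod.fst m0 S → Holds D := by
    intro h x hx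
    have h1 := (bij S hS m0).mp h D.one x hx
    rwa [hD.act_one] at h1
  have hall : Holds D → ∀ M : PMat F, BijAll C M.sch := fun h =>
    (wg_mat hg hC point).mp (hst' h)
  exact ⟨⟨fun h M _ => hall h M, fun h =>
    hback ((hall' S).mp (hL _ (bnd_pair hC point) h) m0)⟩, hall⟩

end Pool.Agent.H652.PM
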